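import Mathlib
import Pool.Agent.Y701.ZT.Exact

/-!
# The degree of the coefficient field of `L(χ_n, s)` in a `ℤ_p`-tower is exactly `φ(p ^ n) / r`

For every `ℤ_p`-tower of curves over a finite field of characteristic `p` with finite ramification locus
there is a divisor `r` of `p - 1` (of `2` if `p = 2`) such that for all large `n` and all characters `χ`
of order `p ^ n` the field generated over `ℚ_p` by the coefficients of `L(χ, s)` has degree exactly
`φ(p ^ n) / r`. So the degree over `ℚ_p` of the splitting field `L_{p, n}` of `L(χ, s)` is divisible by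
`φ(p ^ n) / r` and tends to infinity.
-/

open PowerSeries

namespace Pool.Agent.Results.MP_6895b2_nt.ExactDegree

open Pool.Agent.H707R3

/-- For every `ℤ_p`-tower there are `N` and a divisor `r` of `p - 1` (of `2` if `p = 2`) such that for
`n ≥ N` and every character `χ` of order `p ^ n`: `L(χ, s)` is a product of factors `1 - α s`, the field
generated by the coefficients of `L(χ, s)` has degree exactly `φ(p ^ n) / r` over `ℚ_p`, and the field
generated by the `α` has finite degree divisible by `φ(p ^ n) / r`. -/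
theorem result (p : ℕ) [Fact p.Prime] (k F E : Type) [Field k] [Finite k] [CharP k p]
    [Field F] [Algebra k F] [Field E] [Algebra F E] [Algebra k E] [IsScalarTower k F E]
    (h : IsZpTower k F E p) :
    ∃ r : ℕ, r ∣ (if p = 2 then 2 else p - 1) ∧ ∃ N : ℕ, ∀ n, N ≤ n →
      ∀ χ : (E ≃ₐ[F] E) →* ℂ_[p]ˣ, orderOf χ = p ^ n →
        (∃ A : Multiset ℂ_[p], Lfun k χ = (A.map fun α => 1 - C α * X).prod) ∧
        Module.finrank ℚ_[p]
          (IntermediateField.adjoin ℚ_[p] (Set.range fun j => coeff j (Lfun k χ))) * r =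
          Nat.totient (p ^ n) ∧
        ∀ A : Multiset ℂ_[p], Lfun k χ = (A.map fun α => 1 - C α * X).prod →
          FiniteDimensional ℚ_[p] (IntermediateField.adjoin ℚ_[p] {α : ℂ_[p] | α ∈ A}) ∧
          Nat.totient (p ^ n) ∣
            Module.finrank ℚ_[p] (IntermediateField.adjoin ℚ_[p] {α : ℂ_[p] | α ∈ A}) * r := by
  obtain ⟨r, hr0, hr, N, hN⟩ := Y701.ZT.Lfun_exact h
  obtain ⟨N', hN'⟩ := Lfun_poly h
  rw [Y701.ZT.totient_q0] at hr
  refine ⟨r, hr, max N (max N' 1), fun n hn χ hχ => ⟨hN' n (by omega) χ hχ,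
    (hN n (by omega) χ hχ).1, fun A hA => ?_⟩⟩
  have hint := W90.ZT.isIntegral_Lfun h (by omega : n ≠ 0) χ hχ A hA
  have hfd := W90.ZT.finiteDimensional_genField A hint
  refine ⟨hfd, ?_⟩
  rw [← (hN n (by omega) χ hχ).1]
  apply Nat.mul_dvd_mul_right
  have hle : IntermediateField.adjoin ℚ_[p] (Set.range fun j => coeff j (Lfun k χ)) ≤
      genField A := by
    rw [IntermediateField.adjoin_le_iff]
    rintro x ⟨j, rfl⟩
    show coeff j (Lfun k χ) ∈ _
    rw [hA]
    exact coeff_recipProd_mem _ A (fun α hα => IntermediateField.subset_adjoin _ _ hα) j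
  exact IntermediateField.finrank_dvd_of_le_right hle

end Pool.Agent.Results.MP_6895b2_nt.ExactDegree
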