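import Mathlib
import Pool.Agent.Y841.ZT.One

/-!
# One coefficient of the `L`-functions in a `ℤ_p`-tower of curves

For every `ℤ_p`-tower of curves over a finite field of characteristic `p` with finite ramification
locus and every unramified place `v` of the base with nontrivial Frobenius element there is a constant
`D` such that, for all large `n` and all characters `χ` of order `p ^ n`, the SINGLE coefficient `c` of
`s ^ (deg v)` in `L(χ, s)` generates over `ℚ_p` a subfield of the field of `p ^ n`-th roots of unity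
over which this field has degree at most `D`.  So the degree and the ramification index of
`ℚ_p(c)` are at least `φ(p ^ n) / D`.  The splitting field `L_{p, n}` of `L(χ_n, s)` contains `c`, and
`[L_{p, n} : ℚ_p] → ∞` (Wan's question).
-/

open PowerSeries

namespace Pool.Agent.Results.MP_6895b2_nt.OneCoefficient

open Pool.Agent.H707R3

/-- The field generated over `K` by the `p ^ n`-th roots of unity. -/
noncomputable abbrev cyc {p : ℕ} [Fact p.Prime] (K : IntermediateField ℚ_[p] ℂ_[p]) (n : ℕ) :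
    IntermediateField K ℂ_[p] :=
  IntermediateField.adjoin K {w : ℂ_[p] | w ^ p ^ n = 1}

theorem result (p : ℕ) [Fact p.Prime] (k F E : Type) [Field k] [Finite k] [CharP k p]
    [Field F] [Algebra k F] [Field E] [Algebra F E] [Algebra k E] [IsScalarTower k F E]
    (h : IsZpTower k F E p) :
    (∃ v : Place k F, v.IsUnramified E ∧ v.frob E ≠ 1) ∧
    ∀ v : Place k F, v.IsUnramified E → v.frob E ≠ 1 →
    ∃ D : ℕ, 0 < D ∧ ∃ N : ℕ, ∀ n, N ≤ n →
      ∀ χ : (E ≃ₐ[F] E) →* ℂ_[p]ˣ, orderOf χ = p ^ n →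
        (∃ A : Multiset ℂ_[p], Lfun k χ = (A.map fun α => 1 - C α * X).prod) ∧
        coeff v.deg (Lfun k χ) ∈ IntermediateField.adjoin ℚ_[p] {w : ℂ_[p] | w ^ p ^ n = 1} ∧
        (∀ K : IntermediateField ℚ_[p] ℂ_[p], coeff v.deg (Lfun k χ) ∈ K →
          FiniteDimensional K (cyc K n) ∧ Module.finrank K (cyc K n) ≤ D) ∧
        (∀ K : IntermediateField ℚ_[p] ℂ_[p],
          K = IntermediateField.adjoin ℚ_[p] {coeff v.deg (Lfun k χ)} →
          FiniteDimensional ℚ_[p] K ∧ Nat.totient (p ^ n) ≤ D * ramIdx K ∧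
          ramIdx K ≤ Module.finrank ℚ_[p] K) ∧
        ∀ A : Multiset ℂ_[p], Lfun k χ = (A.map fun α => 1 - C α * X).prod →
          ∀ L : IntermediateField ℚ_[p] ℂ_[p],
            L = IntermediateField.adjoin ℚ_[p] {α : ℂ_[p] | α ∈ A} →
            coeff v.deg (Lfun k χ) ∈ L ∧ FiniteDimensional ℚ_[p] L ∧
            Nat.totient (p ^ n) ≤ D * Module.finrank ℚ_[p] L := by
  refine ⟨Pool.Agent.Y841.ZT.exists_frob h, fun v hv hfr => ?_⟩
  obtain ⟨D, hD, N, hN⟩ := Pool.Agent.Y841.ZT.tower_one (p := p) k h v hv hfr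
  obtain ⟨N', hN'⟩ := Lfun_poly h
  refine ⟨D, hD, max N (max N' 1), fun n hn χ hχ => ?_⟩
  have hn1 : 1 ≤ n := by omega
  have hmem := Pool.Agent.Y841.ZT.coeff_mem k h n χ hχ v.deg
  have hcint := Pool.Agent.Y841.ZT.coeff_int k h n χ hχ v.deg
  have key : ∀ K : IntermediateField ℚ_[p] ℂ_[p],
      K = IntermediateField.adjoin ℚ_[p] {coeff v.deg (Lfun k χ)} →
      FiniteDimensional ℚ_[p] K ∧ Nat.totient (p ^ n) ≤ D * ramIdx K ∧
      ramIdx K ≤ Module.finrank ℚ_[p] K := by
    rintro K rfl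
    have hset : (IntermediateField.adjoin ℚ_[p] {coeff v.deg (Lfun k χ)}) =
        genField ({coeff v.deg (Lfun k χ)} : Multiset ℂ_[p]) := by
      unfold genField
      congr 1
      ext x; simp
    have hint : ∀ α ∈ ({coeff v.deg (Lfun k χ)} : Multiset ℂ_[p]), IsIntegral ℚ_[p] α := by
      intro α hα
      rw [Multiset.mem_singleton] at hα
      rw [hα]; exact hcint
    rw [hset]
    have hfd : FiniteDimensional ℚ_[p] (genField ({coeff v.deg (Lfun k χ)} : Multiset ℂ_[p])) :=
      Pool.Agent.W90.ZT.finiteDimensional_genField _ hint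
    obtain ⟨h1, h2⟩ := hN n (by omega) χ hχ (genField ({coeff v.deg (Lfun k χ)} : Multiset ℂ_[p]))
      (IntermediateField.subset_adjoin _ _ (by simp))
    refine ⟨hfd, ?_, Pool.Agent.H387R3.ZT.ramIdx_le_finrank _ hint⟩
    obtain ⟨m, rfl⟩ : ∃ m, n = m + 1 := ⟨n - 1, by omega⟩
    obtain ⟨r, hr0, hrD, hdvd⟩ := Pool.Agent.W90.ZT.totient_dvd _ h1 h2
    have h3 := Nat.le_of_dvd (Nat.mul_pos (Nat.pos_of_ne_zero (ramIdx_ne_zero _ hint)) hr0) hdvd
    calc Nat.totient (p ^ (m + 1)) ≤ ramIdx _ * r := h3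
      _ ≤ ramIdx _ * D := Nat.mul_le_mul_left _ hrD
      _ = D * ramIdx _ := mul_comm _ _
  refine ⟨hN' n (by omega) χ hχ, hmem, fun K hK => hN n (by omega) χ hχ K hK, key, ?_⟩
  rintro A hA L rfl
  have hcL : coeff v.deg (Lfun k χ) ∈ IntermediateField.adjoin ℚ_[p] {α : ℂ_[p] | α ∈ A} := by
    rw [hA]
    exact coeff_recipProd_mem _ A (fun α hα => IntermediateField.subset_adjoin _ _ hα) v.deg
  have hint := Pool.Agent.W90.ZT.isIntegral_Lfun h (by omega : n ≠ 0) χ hχ A hA
  have hfd : FiniteDimensional ℚ_[p] (IntermediateField.adjoin ℚ_[p] {α : ℂ_[p] | α ∈ A}) :=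
    Pool.Agent.W90.ZT.finiteDimensional_genField A hint
  refine ⟨hcL, hfd, ?_⟩
  obtain ⟨h1, h2, h3⟩ := key _ rfl
  have h4 : Module.finrank ℚ_[p] (IntermediateField.adjoin ℚ_[p] {coeff v.deg (Lfun k χ)}) ≤
      Module.finrank ℚ_[p] (IntermediateField.adjoin ℚ_[p] {α : ℂ_[p] | α ∈ A}) := by
    refine IntermediateField.finrank_le_of_le_right ?_
    rw [IntermediateField.adjoin_le_iff]
    intro x hx
    rw [Set.mem_singleton_iff] at hx
    rw [hx]
    exact hcL
  exact h2.trans (Nat.mul_le_mul_left D (h3.trans h4))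

end Pool.Agent.Results.MP_6895b2_nt.OneCoefficient
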